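import Pool.Agent.helper22.GS.Spec

set_option autoImplicit false
set_option linter.unusedVariables false

namespace Pool.Agent.GS

open Module Polynomial

/-- `X³ - X + 1` is irreducible over a field with three elements. -/
theorem HC13_irr {F : Type} [Field F] [Finite F] (h3 : Nat.card F = 3) :
    Irreducible (X ^ 3 - X + 1 : F[X]) ∧ (X ^ 3 - X + 1 : F[X]).natDegree = 3 := by
  have hd : (X ^ 3 - X + 1 : F[X]).natDegree = 3 := by compute_degree!
  refine ⟨?_, hd⟩
  apply irreducible_of_degree_le_three_of_not_isRoot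
  · rw [hd]; decide
  · intro x hx
    have hx' : x ^ 3 - x + 1 = 0 := by
      have := hx
      simpa [IsRoot.def] using this
    have hF : Fintype F := Fintype.ofFinite F
    have hp : x ^ 3 = x := by
      have := FiniteField.pow_card x
      rw [← Nat.card_eq_fintype_card, h3] at this
      exact this
    rw [hp] at hx'
    simp at hx'

/-- The properties of a root of `X³ - X + 1`. -/
theorem HC13_core (hHP : HP_stmt) {F K : Type} [Field F] [Field K] [Algebra F K] [Finite K]
    (h3 : Nat.card F = 3) (hcard : Nat.card K = 27) (hrk : finrank F K = 3)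
    (h3K : (3 : K) = 0) (h : K) (hroot : h ^ 3 - h + 1 = 0) :
    HD F K 13 3 (-(h + 1) ^ 2) ∧ ¬ IsSquare (-(h + 1) ^ 2) ∧
      Algebra.trace F K (-(h + 1) ^ 2) ≠ 0 := by
  have h2K : (2 : K) ≠ 0 := by
    intro h2
    have : (1 : K) = 0 := by linear_combination h3K - h2
    exact one_ne_zero this
  have hh0 : h ≠ 0 := by
    intro h0
    rw [h0] at hroot
    simp at hroot
  have hinv : h⁻¹ = 1 - h ^ 2 := by
    field_simp
    linear_combination hroot
  have h13 : h ^ 13 = -1 := by
    have e1 : h ^ 3 = h - 1 := by linear_combination hroot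
    have e2 : h ^ 9 = h + 1 := by
      have : h ^ 9 = (h ^ 3) ^ 3 := by ring
      rw [this, e1]
      linear_combination e1 - (h ^ 2 - h + 1) * h3K
    have : h ^ 13 = h ^ 9 * h ^ 3 * h := by ring
    rw [this, e2, e1]
    linear_combination e1
  have hpow : ∀ s : K, s ≠ 0 → s ^ 26 = 1 := by
    intro s hs
    have hK : Fintype K := Fintype.ofFinite K
    have := FiniteField.pow_card_sub_one_eq_one s hs
    rw [← Nat.card_eq_fintype_card, hcard] at this
    exact this
  have hm1 : ∀ s : K, s ^ 2 ≠ -1 := by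
    intro s hs
    have hs0 : s ≠ 0 := by
      intro h0
      rw [h0] at hs
      have : (1 : K) = 0 := by linear_combination hs
      exact one_ne_zero this
    have h26 := hpow s hs0
    have : s ^ 26 = (s ^ 2) ^ 13 := by ring
    rw [this, hs] at h26
    apply h2K
    linear_combination -h26
  have hord : 13 ∣ orderOf h := by
    have hd : orderOf h ∣ 26 := orderOf_dvd_of_pow_eq_one (hpow h hh0)
    by_contra hnd
    have hcop : Nat.Coprime (orderOf h) 13 :=
      ((Nat.Prime.coprime_iff_not_dvd (by norm_num)).2 hnd).symm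
    have hd2 : orderOf h ∣ 2 := by
      have : orderOf h ∣ 2 * 13 := hd
      exact hcop.dvd_of_dvd_mul_right this
    have hsq : h ^ 2 = 1 := orderOf_dvd_iff_pow_eq_one.1 hd2
    have e : h ^ 3 = h := by
      have : h ^ 3 = h ^ 2 * h := by ring
      rw [this, hsq, one_mul]
    rw [e] at hroot
    simp at hroot
  have hσ0 : h + 1 ≠ 0 := by
    intro h0
    have e : h = -1 := by linear_combination h0
    rw [e] at hroot
    have : (1 : K) = 0 := by linear_combination hroot
    exact one_ne_zero this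
  refine ⟨⟨inferInstance, hrk, ?_, ?_⟩, ?_, ?_⟩
  · exact neg_ne_zero.2 (pow_ne_zero 2 hσ0)
  · intro M hM1 hM2 j c hj
    refine hHP (K := K) (E := K) 13 (by norm_num) (by norm_num) (-(h + 1) ^ 2) h hh0 ?_ hord
      M hM1 hM2 j c hj
    rw [hinv, Algebra.algebraMap_self, RingHom.id_apply]
    linear_combination h * h3K
  · rintro ⟨t, ht⟩
    apply hm1 (t / (h + 1))
    rw [div_pow, pow_two t, ← ht]
    field_simp
  · intro htr
    have h1 := FiniteField.algebraMap_trace_eq_sum_pow F K (-(h + 1) ^ 2)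
    rw [htr, hrk, h3, map_zero, Finset.sum_range_succ, Finset.sum_range_succ,
      Finset.sum_range_succ, Finset.sum_range_zero] at h1
    have e1 : h ^ 3 = h - 1 := by linear_combination hroot
    have e3 : (h + 1) ^ 3 = h := by
      linear_combination e1 + (h ^ 2 + h) * h3K
    have f1 : (-(h + 1) ^ 2) ^ 3 = -h ^ 2 := by
      have : (-(h + 1) ^ 2) ^ 3 = -((h + 1) ^ 3) ^ 2 := by ring
      rw [this, e3]
    have f2 : (-(h + 1) ^ 2) ^ 9 = -(h - 1) ^ 2 := by
      have : (-(h + 1) ^ 2) ^ 9 = ((-(h + 1) ^ 2) ^ 3) ^ 3 := by ring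
      rw [this, f1]
      have : (-h ^ 2) ^ 3 = -(h ^ 3) ^ 2 := by ring
      rw [this, e1]
    norm_num at h1
    rw [f1, f2] at h1
    apply h2K
    linear_combination h1 - h ^ 2 * h3K

theorem HC13 (hHP : HP_stmt) : HC13_stmt := by
  intro F _ _ h3
  obtain ⟨hirr, hdeg⟩ := HC13_irr h3
  have hfact : Fact (Irreducible (X ^ 3 - X + 1 : F[X])) := ⟨hirr⟩
  have hne : (X ^ 3 - X + 1 : F[X]) ≠ 0 := hirr.ne_zero
  have hrk : finrank F (AdjoinRoot (X ^ 3 - X + 1 : F[X])) = 3 := by
    rw [(AdjoinRoot.powerBasis hne).finrank]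
    exact hdeg
  have hmf : Module.Finite F (AdjoinRoot (X ^ 3 - X + 1 : F[X])) :=
    (AdjoinRoot.powerBasis hne).finite
  have hfin : Finite (AdjoinRoot (X ^ 3 - X + 1 : F[X])) := Module.finite_of_finite F
  have hcard : Nat.card (AdjoinRoot (X ^ 3 - X + 1 : F[X])) = 27 := by
    rw [Module.natCard_eq_pow_finrank (K := F), h3, hrk]
    norm_num
  have hroot : (AdjoinRoot.root (X ^ 3 - X + 1 : F[X])) ^ 3
      - AdjoinRoot.root (X ^ 3 - X + 1 : F[X]) + 1 = 0 := by
    have := AdjoinRoot.eval₂_root (X ^ 3 - X + 1 : F[X])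
    simpa using this
  have h3K : (3 : AdjoinRoot (X ^ 3 - X + 1 : F[X])) = 0 := by
    have h1 : ((Nat.card F : ℕ) : F) = 0 := by
      have hF : Fintype F := Fintype.ofFinite F
      rw [Nat.card_eq_fintype_card]
      exact FiniteField.cast_card_eq_zero F
    rw [h3] at h1
    have h2 := congrArg (algebraMap F (AdjoinRoot (X ^ 3 - X + 1 : F[X]))) h1
    rw [map_zero, map_natCast] at h2
    exact_mod_cast h2
  exact ⟨_, inferInstance, inferInstance, _, HC13_core hHP h3 hcard hrk h3K _ hroot⟩

end Pool.Agent.GS
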